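import Pool.Agent.helper17.CH.SpecQ

/-!
# Project CH (MP_5628fe_nt), row CB: few windows contain many elements of the switched sequence
-/

set_option autoImplicit false

namespace Pool.Agent.CH

open Finset ArithmeticFunction MeasureTheory
open GD (kp ks)

/-- Sums of `cc` over a finite set. -/
private theorem CB_sum (N : ℕ) (c : ℕ → ℝ) (S : Finset ℕ) :
    ∑ j ∈ S, cc N c j = ∑ n ∈ Ico N (2 * N), c n * (#(S ∩ Win n) : ℝ) := by
  unfold cc
  rw [Finset.sum_comm]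
  apply Finset.sum_congr rfl
  intro n _
  rw [← Finset.sum_filter]
  rw [Finset.sum_const, nsmul_eq_mul, mul_comm]
  congr 2

private theorem CB_win (n : ℕ) : (#(Win n) : ℝ) = 3 * (n : ℝ) ^ 2 + 3 * n + 1 := by
  unfold Win
  rw [Nat.card_Ioc]
  have h : n ^ 3 ≤ (n + 1) ^ 3 := Nat.pow_le_pow_left (Nat.le_succ n) 3
  rw [Nat.cast_sub h]
  push_cast
  ring

private theorem CB_large (A : ℕ) : ∃ N₀ : ℕ, ∀ N : ℕ, N₀ ≤ N → 1000 ≤ Real.log N ∧ 100 ≤ N ∧
    (N : ℝ) ^ (3 - (1 / 20 : ℝ) / 2) ≤ (N : ℝ) ^ 3 / Real.log N ^ A := by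
  have h1 : ∀ᶠ N : ℕ in Filter.atTop, 1000 ≤ Real.log N :=
    (Real.tendsto_log_atTop.comp tendsto_natCast_atTop_atTop).eventually_ge_atTop 1000
  have h2 : ∀ᶠ N : ℕ in Filter.atTop, 100 ≤ N := Filter.eventually_ge_atTop 100
  have h3 : ∀ᶠ x : ℝ in Filter.atTop, Real.log x ^ (A : ℝ) ≤ x ^ (1 / 40 : ℝ) := by
    have h4 := (isLittleO_log_rpow_rpow_atTop (A : ℝ) (show (0 : ℝ) < 1 / 40 by norm_num)).bound
      (show (0 : ℝ) < 1 by norm_num)
    filter_upwards [h4, Filter.eventually_ge_atTop (1 : ℝ)] with x hx hx1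
    rw [one_mul, Real.norm_eq_abs, Real.norm_eq_abs] at hx
    calc Real.log x ^ (A : ℝ) ≤ |Real.log x ^ (A : ℝ)| := le_abs_self _
      _ ≤ |x ^ (1 / 40 : ℝ)| := hx
      _ = x ^ (1 / 40 : ℝ) := abs_of_nonneg (Real.rpow_nonneg (by linarith) _)
  have h5 := tendsto_natCast_atTop_atTop.eventually h3
  have h6 := h1.and (h2.and h5)
  obtain ⟨N₀, hN⟩ := Filter.eventually_atTop.mp h6
  refine ⟨N₀, fun N hN0 => ?_⟩
  obtain ⟨k1, k2, k3⟩ := hN N hN0
  refine ⟨k1, k2, ?_⟩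
  have hNpos : (0 : ℝ) < N := by
    have : (100 : ℝ) ≤ N := by exact_mod_cast k2
    linarith
  have hlog : (0 : ℝ) < Real.log N ^ A := pow_pos (by linarith) A
  rw [le_div_iff₀ hlog]
  rw [Real.rpow_natCast] at k3
  calc (N : ℝ) ^ (3 - (1 / 20 : ℝ) / 2) * Real.log N ^ A
      ≤ (N : ℝ) ^ (3 - (1 / 20 : ℝ) / 2) * (N : ℝ) ^ (1 / 40 : ℝ) := by
        apply mul_le_mul_of_nonneg_left k3
        exact Real.rpow_nonneg hNpos.le _
    _ = (N : ℝ) ^ 3 := by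
        rw [← Real.rpow_add hNpos, ← Real.rpow_natCast]
        norm_num

private theorem CB_real (z w : ℝ) (h : ‖((z : ℝ) : ℂ)‖ ≤ w) : |z| ≤ w := by
  rw [Complex.norm_real, Real.norm_eq_abs] at h
  exact h

/-- CB. -/
theorem CB (hCBL : CBL_stmt) (hQHW : QHW_stmt) (hHW : HW_stmt) (hBD : BD_stmt) : CB_stmt := by
  classical
  intro A
  obtain ⟨B₀, hB₀⟩ := hHW (1 / 20) (A + 3) 0 (by norm_num) le_rfl
  obtain ⟨B₁, hB₁⟩ := hQHW (1 / 20) (A + 3) 0 (by norm_num) le_rfl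
  obtain ⟨N₁, hN₁⟩ := hB₀ (max (max B₀ B₁) 1) (le_trans (le_max_left _ _) (le_max_left _ _))
  obtain ⟨N₂, hN₂⟩ := hB₁ (max (max B₀ B₁) 1) (le_trans (le_max_right _ _) (le_max_left _ _))
  obtain ⟨N₃, hN₃⟩ := hCBL (A + 3) (max (max B₀ B₁) 1) (le_max_right _ _)
  obtain ⟨N₄, hN₄⟩ := hBD (1 / 20) (by norm_num) (by norm_num)
  obtain ⟨N₅, hN₅⟩ := CB_large (A + 3)
  generalize max (max B₀ B₁) 1 = B₂ at *
  refine ⟨max (max N₁ N₂) (max (max N₃ N₄) N₅), ?_⟩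
  intro N hN z y hzy
  have hNa : N₁ ≤ N := le_trans (le_trans (le_max_left _ _) (le_max_left _ _)) hN
  have hNb : N₂ ≤ N := le_trans (le_trans (le_max_right _ _) (le_max_left _ _)) hN
  have hNc : N₃ ≤ N := le_trans (le_trans (le_trans (le_max_left _ _) (le_max_left _ _))
    (le_max_right _ _)) hN
  have hNd : N₄ ≤ N := le_trans (le_trans (le_trans (le_max_right _ _) (le_max_left _ _))
    (le_max_right _ _)) hN
  have hNe : N₅ ≤ N := le_trans (le_trans (le_max_right _ _) (le_max_right _ _)) hN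
  obtain ⟨hL, hN100, hpow⟩ := hN₅ N hNe
  have hN100' : (100 : ℝ) ≤ N := by exact_mod_cast hN100
  have hNpos : (0 : ℝ) < N := by linarith
  have hL0 : (0 : ℝ) < Real.log N := by linarith
  set L : ℝ := Real.log N with hLdef
  set bad : Finset ℕ := (Ico N (2 * N)).filter
    (fun n : ℕ => 4 / 25 * (n : ℝ) ^ 2 / L < (#(BN N z y ∩ Win n) : ℝ)) with hbad
  set c : ℕ → ℝ := fun n => if n ∈ bad then 1 else 0 with hc
  have hc0 : ∀ n, 0 ≤ c n := by
    intro n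
    simp only [hc]
    split_ifs <;> norm_num
  have hc1 : ∀ n, |c n| ≤ 1 := by
    intro n
    simp only [hc]
    split_ifs <;> norm_num
  set E : ℝ := (N : ℝ) ^ 3 / L ^ (A + 3) with hE
  have hE0 : 0 ≤ E := by positivity
  -- abbreviations for the sums
  set P1' : ℕ → ℝ := fun j => Ph N c (de (1 / 20) N) (Real.log (j : ℝ)) with hP1
  set P2' : ℕ → ℝ := fun j => Ph N c (dB B₂ N) (Real.log (j : ℝ)) with hP2
  -- the four estimates
  have f1 : |∑ b ∈ BN N z y, (cc N c b - P1' b)| ≤ E := by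
    have h := hN₄ N hNd c hc1 1 (fun j => if j ∈ BN N z y then 1 else 0) (by
      intro j
      split_ifs <;> simp)
    have e : ∑ j ∈ Ioc 0 (64 * N ^ 3), (if j ∈ BN N z y then (1 : ℂ) else 0) *
        ((cc N c j - Ph N c (de (1 / 20) N) (Real.log j) : ℝ) : ℂ) =
        ((∑ b ∈ BN N z y, (cc N c b - P1' b) : ℝ) : ℂ) := by
      rw [Complex.ofReal_sum]
      have hsub : BN N z y ⊆ Ioc 0 (64 * N ^ 3) := by
        unfold BN
        exact Finset.filter_subset _ _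
      rw [← Finset.sum_subset hsub]
      · apply Finset.sum_congr rfl
        intro b hb
        rw [if_pos hb, one_mul]
      · intro j _ hj
        rw [if_neg hj, zero_mul]
    rw [e, one_mul] at h
    exact le_trans (CB_real _ _ h) hpow
  have f2 : |∑ j ∈ Ioc 0 (64 * N ^ 3), (cc N c j - P1' j)| ≤ E := by
    have h := hN₄ N hNd c hc1 1 (fun _ => 1) (by intro j; simp)
    have e : ∑ j ∈ Ioc 0 (64 * N ^ 3), (1 : ℂ) *
        ((cc N c j - Ph N c (de (1 / 20) N) (Real.log j) : ℝ) : ℂ) =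
        ((∑ j ∈ Ioc 0 (64 * N ^ 3), (cc N c j - P1' j) : ℝ) : ℂ) := by
      rw [Complex.ofReal_sum]
      apply Finset.sum_congr rfl
      intro j _
      rw [one_mul]
    rw [e, one_mul] at h
    exact le_trans (CB_real _ _ h) hpow
  have f3 : |∑ b ∈ BN N z y, (P1' b - P2' b)| ≤ E := by
    have h := hN₂ N hNb c hc1 z y hzy 1 le_rfl (by simp) 1
    have e : ∑ b ∈ BN N z y, (1 : DirichletCharacter ℂ 1) b * gW N c (de (1 / 20) N) (dB B₂ N) b =
        ((∑ b ∈ BN N z y, (P1' b - P2' b) : ℝ) : ℂ) := by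
      rw [Complex.ofReal_sum]
      apply Finset.sum_congr rfl
      intro b _
      have h1 : (1 : DirichletCharacter ℂ 1) (b : ZMod 1) = 1 := by
        apply MulChar.one_apply
        exact isUnit_of_subsingleton _
      rw [h1, one_mul]
      rfl
    rw [e] at h
    exact CB_real _ _ h
  have f4 : |∑ j ∈ Ioc 0 (64 * N ^ 3), (P1' j - P2' j)| ≤ E := by
    have h := (hN₁ N hNa c hc1).2
    have e : ∑ j ∈ Ioc 0 (64 * N ^ 3), gW N c (de (1 / 20) N) (dB B₂ N) j =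
        ((∑ j ∈ Ioc 0 (64 * N ^ 3), (P1' j - P2' j) : ℝ) : ℂ) := by
      rw [Complex.ofReal_sum]
      rfl
    rw [e] at h
    exact CB_real _ _ h
  have f5 : ∑ b ∈ BN N z y, P2' b ≤ 1 / 20 / L * ∑ j ∈ Ioc (0 : ℕ) (64 * N ^ 3), P2' j + E :=
    hN₃ N hNc z y hzy c hc0 hc1
  -- the main inequality
  have g1 : ∑ b ∈ BN N z y, cc N c b ≤ ∑ b ∈ BN N z y, P2' b + 2 * E := by
    have h1 := (abs_le.mp f1).2
    have h3 := (abs_le.mp f3).2
    rw [Finset.sum_sub_distrib] at h1 h3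
    linarith
  have g2 : ∑ j ∈ Ioc 0 (64 * N ^ 3), P2' j ≤ ∑ j ∈ Ioc 0 (64 * N ^ 3), cc N c j + 2 * E := by
    have h2 := (abs_le.mp f2).1
    have h4 := (abs_le.mp f4).1
    rw [Finset.sum_sub_distrib] at h2 h4
    linarith
  have hcoef : 0 ≤ 1 / 20 / L := by positivity
  have hcoef1 : 1 / 20 / L ≤ 1 := by
    rw [div_le_one hL0]
    linarith
  have g3 : ∑ b ∈ BN N z y, cc N c b ≤
      1 / 20 / L * ∑ j ∈ Ioc 0 (64 * N ^ 3), cc N c j + 5 * E := by
    have h1 := mul_le_mul_of_nonneg_left g2 hcoef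
    have h2 : 1 / 20 / L * (2 * E) ≤ 1 * (2 * E) :=
      mul_le_mul_of_nonneg_right hcoef1 (by positivity)
    rw [mul_add] at h1
    linarith
  -- unfolding the sums of `cc`
  have hb1 : ∑ b ∈ BN N z y, cc N c b = ∑ n ∈ bad, (#(BN N z y ∩ Win n) : ℝ) := by
    rw [CB_sum]
    have hsub : bad ⊆ Ico N (2 * N) := Finset.filter_subset _ _
    rw [← Finset.sum_subset hsub]
    · apply Finset.sum_congr rfl
      intro n hn
      simp only [hc, if_pos hn, one_mul]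
    · intro n _ hn
      simp only [hc, if_neg hn, zero_mul]
  have hb2 : ∑ j ∈ Ioc 0 (64 * N ^ 3), cc N c j ≤ ∑ n ∈ bad, (3 * (n : ℝ) ^ 2 + 3 * n + 1) := by
    rw [CB_sum]
    have hsub : bad ⊆ Ico N (2 * N) := Finset.filter_subset _ _
    rw [← Finset.sum_subset hsub]
    · apply Finset.sum_le_sum
      intro n hn
      simp only [hc, if_pos hn, one_mul]
      rw [← CB_win]
      exact_mod_cast Finset.card_le_card Finset.inter_subset_right
    · intro n _ hn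
      simp only [hc, if_neg hn, zero_mul]
  have g4 : ∑ n ∈ bad, ((#(BN N z y ∩ Win n) : ℝ) - 1 / 20 / L * (3 * (n : ℝ) ^ 2 + 3 * n + 1)) ≤
      5 * E := by
    rw [Finset.sum_sub_distrib, ← Finset.mul_sum, ← hb1]
    have := mul_le_mul_of_nonneg_left hb2 hcoef
    linarith
  have g5 : (bad.card : ℝ) * (1 / 200 * (N : ℝ) ^ 2 / L) ≤ 5 * E := by
    refine le_trans ?_ g4
    rw [← nsmul_eq_mul, ← Finset.sum_const]
    apply Finset.sum_le_sum
    intro n hn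
    rw [hbad, Finset.mem_filter, Finset.mem_Ico] at hn
    obtain ⟨⟨hn1, _⟩, hn2⟩ := hn
    have hn1' : (N : ℝ) ≤ n := by exact_mod_cast hn1
    have hn3 : (N : ℝ) ^ 2 ≤ (n : ℝ) ^ 2 := pow_le_pow_left₀ hNpos.le hn1' 2
    have e1 : 1 / 200 * (N : ℝ) ^ 2 / L + 1 / 20 / L * (3 * (n : ℝ) ^ 2 + 3 * n + 1) ≤
        4 / 25 * (n : ℝ) ^ 2 / L := by
      have e2 : 1 / 200 * (N : ℝ) ^ 2 / L + 1 / 20 / L * (3 * (n : ℝ) ^ 2 + 3 * n + 1) =
          (1 / 200 * (N : ℝ) ^ 2 + 1 / 20 * (3 * (n : ℝ) ^ 2 + 3 * n + 1)) / L := by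
        field_simp
      rw [e2]
      apply div_le_div_of_nonneg_right _ hL0.le
      nlinarith
    linarith
  -- conclusion
  have hE' : E = (N : ℝ) ^ 3 / (L ^ A * L ^ 3) := by rw [hE, pow_add]
  have hLA : 0 < L ^ A := pow_pos hL0 A
  show (bad.card : ℝ) ≤ N / L ^ A
  rw [le_div_iff₀ hLA]
  have g6 : (bad.card : ℝ) * L ^ A * (1 / 200 * (N : ℝ) ^ 2 / L) ≤ 5 * ((N : ℝ) ^ 3 / L ^ 3) := by
    calc (bad.card : ℝ) * L ^ A * (1 / 200 * (N : ℝ) ^ 2 / L)
        = ((bad.card : ℝ) * (1 / 200 * (N : ℝ) ^ 2 / L)) * L ^ A := by ring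
      _ ≤ (5 * E) * L ^ A := mul_le_mul_of_nonneg_right g5 hLA.le
      _ = 5 * ((N : ℝ) ^ 3 / L ^ 3) := by
          rw [hE']
          field_simp
  have g7 : (bad.card : ℝ) * L ^ A * L ^ 2 ≤ 1000 * N := by
    have h1 : 0 < 200 * L ^ 3 / (N : ℝ) ^ 2 := by positivity
    have h2 := mul_le_mul_of_nonneg_right g6 h1.le
    have e1 : (bad.card : ℝ) * L ^ A * (1 / 200 * (N : ℝ) ^ 2 / L) * (200 * L ^ 3 / (N : ℝ) ^ 2) =
        (bad.card : ℝ) * L ^ A * L ^ 2 := by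
      field_simp
    have e2 : 5 * ((N : ℝ) ^ 3 / L ^ 3) * (200 * L ^ 3 / (N : ℝ) ^ 2) = 1000 * N := by
      field_simp
      ring
    rw [e1, e2] at h2
    exact h2
  have hL2 : 1000 ≤ L ^ 2 := by nlinarith
  have h0 : 0 ≤ (bad.card : ℝ) * L ^ A := by positivity
  nlinarith

end Pool.Agent.CH
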